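import Mathlib

set_option autoImplicit false

/-!
Combinatorial set-up for the spaces `X J`: locally constant functions from the Cantor set to a
countable set `J`, and a transfinite recursion of length continuum.
(Generalises `Pool.Agent.H30.D2`, an example with `J = {0, 1, 2}` from an earlier run.)
-/

namespace Pool.Agent.KS6_94.CP

open Set Filter Topology Cardinal PiNat

/-- the Cantor set -/
abbrev C := ℕ → Bool

/-- agreement of the first `n` digits -/
def A (n : ℕ) (r s : C) : Prop := ∀ m < n, r m = s m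

lemma A.refl (n : ℕ) (r : C) : A n r r := fun _ _ => rfl
lemma A.symm {n : ℕ} {r s : C} (h : A n r s) : A n s r := fun m k => (h m k).symm
lemma A.trans {n : ℕ} {r s t : C} (h : A n r s) (g : A n s t) : A n r t :=
  fun m k => (h m k).trans (g m k)
lemma A.mono {n k : ℕ} {r s : C} (h : A n r s) (g : k ≤ n) : A k r s := fun m c => h m (c.trans_le g)

lemma A_ne {r s : C} (h : r ≠ s) : ∀ᶠ n in atTop, ¬ A n r s := by
  obtain ⟨m, hm⟩ := Function.ne_iff.1 h
  exact (eventually_gt_atTop m).mono fun n k a => hm (a m k)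

lemma near (t : C) (n : ℕ) : ∃ r, r ≠ t ∧ A n r t :=
  ⟨Function.update t n (!t n), fun e => by simpa using congrFun e n,
    fun m k => Function.update_of_ne k.ne _ _⟩

/-- the locally constant functions from the Cantor set to `J` -/
def Q (J : Type) : Type := {σ : C → J // ∀ᶠ n in atTop, ∀ r s, A n r s → σ r = σ s}

variable {J : Type}

instance [Countable J] : Countable (Q J) := by
  refine (Set.countable_range fun p : Σ n : ℕ, (Fin n → Bool) → J =>
    fun r : C => p.2 fun i => r i).mono (s₁ := {σ | ∀ᶠ n in atTop, ∀ r s, A n r s → σ r = σ s}) ?_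
  intro σ h
  obtain ⟨n, h⟩ := h.exists
  exact ⟨⟨n, fun v => σ fun i => if c : i < n then v ⟨i, c⟩ else false⟩,
    funext fun r => h _ _ fun m k => by simp [k]⟩

open Classical in
/-- change the value of `σ` to `j` near `t` -/
noncomputable def md (σ : Q J) (t : C) (n : ℕ) (j : J) : Q J :=
  ⟨fun r => if A n r t then j else σ.1 r, (σ.2.and (eventually_ge_atTop n)).mono fun k h r s a => by
    have : A n r t ↔ A n s t := ⟨(a.mono h.2).symm.trans, (a.mono h.2).trans⟩
    simp only [this, h.1 r s a]⟩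

lemma md_in {σ : Q J} {t r : C} {n : ℕ} {j : J} (h : A n r t) : (md σ t n j).1 r = j := if_pos h
lemma md_out {σ : Q J} {t r : C} {n : ℕ} {j : J} (h : ¬ A n r t) : (md σ t n j).1 r = σ.1 r :=
  if_neg h

/-- constant functions -/
def cst (j : J) : Q J := ⟨fun _ => j, Eventually.of_forall fun _ _ _ _ => rfl⟩

instance [Nonempty J] : Nonempty (Q J) := ⟨cst (Classical.arbitrary J)⟩

/-- data attached to a point of the Cantor set -/
abbrev Dt (J : Type) := Q J × J × ℕ

/-- `g` is continuous on `Q J`, with finite sets of coordinates read off from `e` and `l` -/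
def Cont {K : Type} (g : Q J → K) (e : ℕ → C) (l : Q J → ℕ) : Prop :=
  ∀ σ τ : Q J, (∀ m < l σ, τ.1 (e m) = σ.1 (e m)) → g τ = g σ

/-- changing the value at `t` from `σ t` to `j` does not change `g` -/
def Good {K : Type} (g : Q J → K) (t : C) (d : Dt J) : Prop :=
  d.2.1 ≠ d.1.1 t ∧ ∀ᶠ n in atTop, g (md d.1 t n d.2.1) = g d.1

lemma Good.of_comp {K L : Type} {e : K → L} (he : Function.Injective e) {g : Q J → K} {t : C}
    {d : Dt J} (h : Good (fun σ => e (g σ)) t d) : Good g t d :=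
  ⟨h.1, h.2.mono fun _ k => he k⟩

/-- `k` is smaller than the cardinality of `J` -/
def Small (J : Type) (k : ℕ) : Prop := ∃ J₀ : Finset J, k < J₀.card

lemma good_ex {g : Q J → ℕ} {e : ℕ → C} {l : Q J → ℕ} (h : Cont g e l) {k : ℕ} (hk : Small J k)
    (hg : ∀ σ, g σ < k) (t : C) : ∃ d, Good g t d := by
  classical
  have key : ∀ σ : Q J, ∀ᶠ n in atTop, ∀ τ : Q J, τ.1 t = σ.1 t →
      (∀ r, ¬ A n r t → τ.1 r = σ.1 r) → g τ = g σ := fun σ => by
    have : ∀ᶠ n in atTop, ∀ m ∈ Finset.range (l σ), e m ≠ t → ¬ A n (e m) t :=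
      (eventually_all_finset _).2 fun m _ => by
        by_cases c : e m = t
        · exact Eventually.of_forall fun _ k => (k c).elim
        · exact (A_ne c).mono fun _ k _ => k
    refine this.mono fun n k τ h1 h2 => h σ τ fun m hm => ?_
    by_cases c : e m = t
    · rwa [c]
    · exact h2 _ (k m (Finset.mem_range.2 hm) c)
  obtain ⟨J₀, hJ⟩ := hk
  have J₀ne : J₀.Nonempty := Finset.card_pos.1 (by omega)
  obtain ⟨j₀, -⟩ := J₀ne
  have fus : ∀ S : Finset J, ∃ (s : Q J) (c : ℕ) (γ : J → ℕ), ∀ i ∈ S, ∀ τ : Q J, τ.1 t = i →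
      (∀ r, ¬ A c r t → τ.1 r = s.1 r) → g τ = γ i := by
    intro S
    induction S using Finset.induction_on with
    | empty => exact ⟨cst j₀, 0, fun _ => 0, fun i hi => by simp at hi⟩
    | insert j S hj ih =>
      obtain ⟨s, c, γ, hs⟩ := ih
      obtain ⟨b, hb, cb⟩ := ((key (md s t c j)).and (eventually_ge_atTop c)).exists
      refine ⟨md s t c j, b, Function.update γ j (g (md s t c j)), fun i hi τ h1 h2 => ?_⟩
      by_cases hij : i = j
      · subst hij
        rw [Function.update_self]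
        exact hb τ (by rw [md_in (A.refl _ _)]; exact h1) h2
      · rw [Function.update_of_ne hij]
        refine hs i ((Finset.mem_insert.1 hi).resolve_left hij) τ h1 fun r k => ?_
        rw [h2 r fun x => k (x.mono cb), md_out k]
  obtain ⟨s, c, γ, hγ⟩ := fus J₀
  have hval : ∀ i ∈ J₀, γ i = g (md s t c i) := fun i hi =>
    (hγ i hi _ (md_in (A.refl _ _)) fun r k => md_out k).symm
  obtain ⟨i, hi, j, hj, ij, e⟩ := Finset.exists_ne_map_eq_of_card_lt_of_maps_to
    (s := J₀) (t := Finset.range k) (f := γ) (by simpa using hJ)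
    (fun i hi => by
      have hi' : i ∈ J₀ := hi
      simpa [hval i hi'] using hg _)
  refine ⟨(md s t c i, j, 0), by simpa [md_in (A.refl _ _)] using ij.symm,
    (eventually_ge_atTop c).mono fun n hn => ?_⟩
  rw [hγ j hj _ (md_in (A.refl _ _)) fun r k => by rw [md_out fun x => k (x.mono hn), md_out k],
    hγ i hi _ (md_in (A.refl _ _)) fun r k => md_out k, e]

lemma brec {I D : Type} (hI : #I ≤ 𝔠) (T : I → Set (Set C × D)) (hc : ∀ i, ∀ p ∈ T i, p.1.Countable)
    (h : ∀ i (R : Set C), #R < 𝔠 → ∃ p ∈ T i, Disjoint p.1 R) :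
    ∃ p : I → Set C × D, (∀ i, p i ∈ T i) ∧ Pairwise fun i j => Disjoint (p i).1 (p j).1 := by
  obtain ⟨_, _, hw⟩ := exists_ord_eq_type_lt I
  have : ∀ i (g : ∀ j, j < i → {p : Set C × D // p.1.Countable}), ∃ x : {p : Set C × D // p.1.Countable},
      x.1 ∈ T i ∧ ∀ j hj, Disjoint x.1.1 (g j hj).1.1 := fun i g => by
    obtain ⟨p, h1, h2⟩ := h i (⋃ j : Iio i, (g j j.2).1.1) ((mk_iUnion_le _).trans_lt
      (mul_lt_of_lt aleph0_le_continuum ((mk_Iio_lt i hw).trans_le hI)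
        ((ciSup_le' fun j : Iio i => (g j j.2).2.le_aleph0).trans_lt aleph0_lt_continuum)))
    exact ⟨⟨p, hc i p h1⟩, h1, fun j hj => h2.mono_right (subset_iUnion
      (fun j : Iio i => (g j j.2).1.1) ⟨j, hj⟩)⟩
  choose F F1 F2 using this
  let f := (wellFounded_lt (α := I)).fix F
  have e : ∀ i, f i = F i fun j _ => f j := fun i => WellFounded.fix_eq _ _ _
  have k : ∀ i j, i < j → Disjoint (f j).1.1 (f i).1.1 := fun i j h => by
    rw [e j]; exact F2 j (fun j _ => f j) i h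
  refine ⟨fun i => (f i).1, fun i => (e i ▸ F1 _ _ : (f i).1 ∈ T i), fun i j h => ?_⟩
  rcases lt_or_gt_of_ne h with c | c
  exacts [(k i j c).symm, k j i c]

instance : Uncountable C := aleph0_lt_mk_iff.1 (by simpa using aleph0_lt_continuum)

lemma cone (a : C) (L : ℕ) (R : Set C) (h : #R < 𝔠) : ∃ t, A L t a ∧ t ∉ R := by
  by_contra! k
  refine h.not_ge (le_trans (by simp) (mk_le_of_injective
    (f := fun u : C => (⟨fun m => if m < L then a m else u (m - L), k _ fun m c => if_pos c⟩ : R))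
      fun u v e => funext fun m => ?_))
  simpa using congrFun (congrArg Subtype.val e) (m + L)

/-- indices of the values of a code -/
abbrev ι (J : Type) := Q J ⊕ (ℕ × ℕ) ⊕ ℕ

/-- values of a code: natural numbers for the functions on `Q J`, digits otherwise -/
abbrev V (J : Type) : ι J → Type
  | .inl _ => ℕ
  | .inr _ => Bool

/-- codes -/
abbrev W (J : Type) := ∀ i : ι J, V J i

/-- the function coded by `w` -/
def gW (w : W J) (σ : Q J) : ℕ := w (.inl σ)

/-- the points coded by `w` -/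
def eW (w : W J) (m : ℕ) : C := fun i => w (.inr (.inl (m, i)))

/-- the marks coded by `w` -/
def fW (w : W J) (m : ℕ) : Bool := w (.inr (.inr m))

/-- `w` is a branch of `Ψ` -/
def Br (Ψ : List Bool → W J) (w : W J) : Prop :=
  (∃ b : C, ∀ i, ∀ᶠ n in atTop, Ψ (res b n) i = w i) ∧
    ∀ m k, fW w m = true → fW w k = false → eW w m ≠ eW w k

/-- the free points of `w` -/
def fr (w : W J) : Set C := eW w '' {m | fW w m = true}

lemma mk_W [Countable J] : #(W J) ≤ 𝔠 := by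
  have h1 : ∀ i : ι J, #(V J i) ≤ ℵ₀ := by
    rintro (σ | i)
    · exact mk_le_aleph0 (α := ℕ)
    · exact mk_le_aleph0 (α := Bool)
  rw [W, mk_pi]
  calc prod (fun i : ι J => #(V J i)) ≤ prod (fun _ : ι J => ℵ₀) := prod_le_prod _ _ h1
    _ = ℵ₀ ^ #(ι J) := by simp
    _ ≤ ℵ₀ ^ ℵ₀ := power_le_power_left aleph0_ne_zero (mk_le_aleph0 (α := ι J))
    _ = 𝔠 := aleph0_power_aleph0

lemma mk_Psi [Countable J] : #(List Bool → W J) ≤ 𝔠 := by
  calc #(List Bool → W J) = #(W J) ^ #(List Bool) := by simp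
    _ ≤ 𝔠 ^ #(List Bool) := power_le_power_right mk_W
    _ ≤ 𝔠 ^ ℵ₀ := power_le_power_left (by simpa using continuum_ne_zero) (mk_le_aleph0 (α := List Bool))
    _ = 𝔠 := continuum_power_aleph0

lemma mk_Z [Countable J] : #(Dt J × C × ℕ × C) ≤ 𝔠 := by
  have : Countable (Dt J) := inferInstance
  have h1 : #(Dt J) ≤ 𝔠 := (mk_le_aleph0 (α := Dt J)).trans aleph0_le_continuum
  have h2 : #C = 𝔠 := by simp
  have h3 : #(C × ℕ × C) ≤ 𝔠 := by simp
  calc #(Dt J × C × ℕ × C) = #(Dt J) * #(C × ℕ × C) := by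
        rw [mk_prod, lift_id, lift_id]
    _ ≤ 𝔠 * 𝔠 := mul_le_mul' h1 h3
    _ = 𝔠 := continuum_mul_self

theorem data (J : Type) [Countable J] [Nontrivial J] :
    ∃ d : C → Dt J, (∀ t, (d t).2.1 ≠ (d t).1.1 t) ∧
    (∀ Ψ : List Bool → W J, (∀ R : Set C, #R < 𝔠 → ∃ w, Br Ψ w ∧ Disjoint (fr w) R ∧
      (∃ e l, Cont (gW w) e l) ∧ ∃ k, Small J k ∧ ∀ σ, gW w σ < k) →
        ∃ w, Br Ψ w ∧ ∀ t ∈ fr w, Good (gW w) t (d t)) ∧
    ∀ (z : Dt J) a L, (∀ u, A L u a → z.2.1 ≠ z.1.1 u) → ¬ {t | A L t a ∧ d t = z}.Countable := by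
  classical
  obtain ⟨x₀, x₁, hx⟩ := exists_pair_ne J
  let T : (List Bool → W J) ⊕ (Dt J × C × ℕ × C) → Set (Set C × (C → Dt J)) := Sum.elim
    (fun Ψ => {p | ∃ w, Br Ψ w ∧ p.1 = fr w ∧ ∀ t ∈ fr w, Good (gW w) t (p.2 t)})
    fun z => {p | ∃ t, p = ({t}, fun _ => z.1) ∧ A z.2.2.1 t z.2.1 ∧ z.1.2.1 ≠ z.1.1.1 t}
  obtain ⟨p, p1, p2⟩ := brec (I := {i // ∀ R : Set C, #R < 𝔠 → ∃ p ∈ T i, Disjoint p.1 R})
    ((mk_subtype_le _).trans (by
      rw [mk_sum, lift_id, lift_id]
      exact add_le_of_le aleph0_le_continuum mk_Psi mk_Z)) (fun i => T i) (by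
      rintro ⟨Ψ | z, _⟩ p ⟨w, h1, h2⟩
      · exact h2.1 ▸ (to_countable _).image _
      · exact h1 ▸ countable_singleton _) fun i => i.2
  let d : C → Dt J := fun t => if h : ∃ i, t ∈ (p i).1 then (p h.choose).2 t else (cst x₀, x₁, 0)
  have hd : ∀ i, ∀ t ∈ (p i).1, d t = (p i).2 t := fun i t h => by
    have c : ∃ i, t ∈ (p i).1 := ⟨i, h⟩
    have : c.choose = i := by_contra fun k => disjoint_left.1 (p2 k) c.choose_spec h
    simp only [d, dif_pos c, this]
  refine ⟨d, fun t => ?_, fun Ψ h => ?_, fun z a L h c => ?_⟩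
  · by_cases c : ∃ i, t ∈ (p i).1
    · obtain ⟨⟨Ψ | z, hi⟩, h⟩ := c
      · obtain ⟨w, -, h2, h3⟩ := p1 ⟨_, hi⟩
        rw [hd _ t h]; exact (h3 t (h2 ▸ h)).1
      · obtain ⟨w, h1, -, h3⟩ := p1 ⟨_, hi⟩
        rw [hd _ t h]; rw [h1] at h ⊢; cases h; exact h3
    · rw [show d t = (cst x₀, x₁, 0) from dif_neg c]; exact hx.symm
  · obtain ⟨w, h1, h2, h3⟩ := p1 ⟨.inl Ψ, fun R hR => by
      obtain ⟨w, h1, h2, ⟨e, l, h3⟩, k, hk, hb⟩ := h R hR
      choose δ hδ using good_ex h3 hk hb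
      exact ⟨(fr w, δ), ⟨w, h1, rfl, fun t _ => hδ t⟩, h2⟩⟩
    exact ⟨w, h1, fun t ht => hd _ t (h2 ▸ ht) ▸ h3 t ht⟩
  · have hz : ∀ ξ (R : Set C), #R < 𝔠 → ∃ p ∈ T (.inr (z, a, L, ξ)), Disjoint p.1 R := fun ξ R hR =>
      let ⟨t, h1, h2⟩ := cone a L R hR
      ⟨_, ⟨t, rfl, h1, h t h1⟩, disjoint_singleton_left.2 h2⟩
    choose t t1 t2 _ using fun ξ => p1 ⟨_, hz ξ⟩
    have : Function.Injective t := fun ξ η e => by_contra fun k => by
      have := p2 (i := ⟨_, hz ξ⟩) (j := ⟨_, hz η⟩) (by simpa using k)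
      simp [t1, e] at this
    refine not_countable_univ ((c.preimage_of_injOn this.injOn).mono fun ξ _ =>
      And.intro (t2 ξ) ?_)
    rw [hd ⟨_, hz ξ⟩ _ (by simp [t1]), t1]

end Pool.Agent.KS6_94.CP
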