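import Pool.Agent.KS6_94.CP.B

set_option autoImplicit false

/-!
The space `X J` and the Lindelöf property of `C_p(X J, Fin K)` for `K < |J|`.
(Generalises `Pool.Agent.H30.D2` of an earlier run.)
-/

namespace Pool.Agent.KS6_94.CP

open Set Filter Topology Cardinal PiNat TopologicalSpace

noncomputable instance : DecidableEq C := Classical.decEq _

section

variable (J : Type) [Countable J] [Nontrivial J]

/-- the data -/
noncomputable def d : C → Dt J := (data J).choose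

lemma d_ne (t : C) : (d J t).2.1 ≠ (d J t).1.1 t := (data J).choose_spec.1 t

/-- the space: the locally constant functions and countably many isolated points for each `t` -/
def X : Type := Q J ⊕ (C × ℕ)

end

variable {J : Type} [Countable J] [Nontrivial J]

/-- approximations of `(d t).1` -/
noncomputable def tie (t : C) (n : ℕ) : Q J := md (d J t).1 t (n + (d J t).2.2) (d J t).2.1

/-- the functions `ev · r` are the coordinates -/
noncomputable def ev : X J → C → J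
  | .inl σ => σ.1
  | .inr z => Function.update (tie z.1 z.2).1 z.1 ((d J z.1).1.1 z.1)

lemma ev_ne {t r : C} (n : ℕ) (h : r ≠ t) : ev (J := J) (.inr (t, n)) r = (tie t n).1 r :=
  Function.update_of_ne h _ _

lemma ev_eq (t : C) (n : ℕ) : ev (J := J) (.inr (t, n)) t = (d J t).1.1 t := Function.update_self ..

lemma ev_loc (x : X J) (r : C) (h : ∀ n, x ≠ .inr (r, n)) :
    ∀ᶠ N in atTop, ∀ u, A N u r → ev x u = ev x r := by
  rcases x with σ | ⟨t, n⟩
  · exact σ.2.mono fun _ k u => k u r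
  have c : r ≠ t := fun e => h n (by rw [e])
  refine ((tie (J := J) t n).2.and (A_ne c)).mono fun N k u a => ?_
  rw [ev_ne n c, ev_ne n fun e : u = t => k.2 (e ▸ a.symm), k.1 u r a]

lemma ev_sep (σ : Q J) (z : C × ℕ) : ∃ r, ev (.inr z) r ≠ σ.1 r := by
  obtain ⟨t, n⟩ := z
  obtain ⟨N, h1, h2⟩ := (σ.2.and (eventually_ge_atTop (n + (d J t).2.2))).exists
  obtain ⟨r, r1, r2⟩ := near t N
  by_contra! k
  refine d_ne J t ?_
  rw [← ev_eq t n, k, ← h1 r t r2, ← k, ev_ne n r1, tie, md_in (r2.mono h2)]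

instance : TopologicalSpace (X J) where
  IsOpen U := ∀ σ, .inl σ ∈ U → ∃ F : Finset C, ∀ x, (∀ r ∈ F, ev x r = σ.1 r) → x ∈ U
  isOpen_univ _ _ := ⟨∅, fun _ _ => trivial⟩
  isOpen_inter U V hU hV σ k := by
    obtain ⟨F, h⟩ := hU σ k.1
    obtain ⟨G, g⟩ := hV σ k.2
    exact ⟨F ∪ G, fun x o => ⟨h x fun r c => o r (Finset.mem_union_left _ c),
      g x fun r c => o r (Finset.mem_union_right _ c)⟩⟩
  isOpen_sUnion s h σ := fun ⟨U, h1, h2⟩ => (h U h1 σ h2).imp fun _ k x o => ⟨U, h1, k x o⟩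

lemma cont_iff {Y : Type} [TopologicalSpace Y] [DiscreteTopology Y] (f : X J → Y) : Continuous f ↔
    ∀ σ : Q J, ∃ F : Finset C, ∀ x, (∀ r ∈ F, ev x r = σ.1 r) → f x = f (.inl σ) :=
  ⟨fun h σ => (isOpen_discrete {f (.inl σ)}).preimage h σ rfl, fun h => ⟨fun s _ σ k =>
    (h σ).imp fun _ a x o => show f x ∈ s by rw [a x o]; exact k⟩⟩

lemma ev_cont [TopologicalSpace J] [DiscreteTopology J] (r : C) :
    Continuous fun x : X J => ev x r :=
  (cont_iff _).2 fun _ => ⟨{r}, fun _ h => h r (by simp)⟩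

lemma basis : IsTopologicalBasis {U : Set (X J) | IsClopen U} := by
  classical
  let _ : TopologicalSpace J := ⊥
  have _ : DiscreteTopology J := ⟨rfl⟩
  refine isTopologicalBasis_of_isOpen_of_nhds (fun _ h => h.2) ?_
  rintro (σ | z) U h1 h2
  · obtain ⟨F, h⟩ := h2 σ h1
    exact ⟨⋂ r ∈ F, (fun x => ev x r) ⁻¹' {σ.1 r}, isClopen_biInter_finset fun r _ =>
      (isClopen_discrete _).preimage (ev_cont r), mem_iInter₂.2 fun _ _ => rfl,
        fun x k => h x (mem_iInter₂.1 k)⟩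
  · refine ⟨{.inr z}, ⟨⟨fun σ _ => ?_⟩, fun σ h => by cases h⟩, rfl, singleton_subset_iff.2 h1⟩
    obtain ⟨r, h⟩ := ev_sep σ z
    exact ⟨{r}, fun x k e => h (e ▸ k r (by simp))⟩

instance : T0Space (X J) := by
  let _ : TopologicalSpace J := ⊥
  have _ : DiscreteTopology J := ⟨rfl⟩
  refine t0Space_iff_exists_isOpen_xor_mem _ |>.2 ?_
  rintro (σ | z) (τ | y) h
  · obtain ⟨r, k⟩ := Function.ne_iff.1 fun e : σ.1 = τ.1 => h (by rw [Subtype.ext e])
    exact ⟨_, (isOpen_discrete {σ.1 r}).preimage (ev_cont r), Or.inl ⟨rfl, k.symm⟩⟩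
  · exact ⟨{.inr y}, fun σ h => (by cases h), Or.inr ⟨rfl, h⟩⟩
  · exact ⟨{.inr z}, fun σ h => (by cases h), Or.inl ⟨rfl, h.symm⟩⟩
  · exact ⟨{.inr z}, fun σ h => (by cases h), Or.inl ⟨rfl, h.symm⟩⟩

instance : T35Space (X J) := { CompletelyRegularSpace.of_isTopologicalBasis_clopens basis with }

lemma fin_sep (σ : Q J) {E : Set (C × ℕ)} (h : E.Finite) :
    ∃ F : Finset C, ∀ z ∈ E, ¬ ∀ r ∈ F, ev (.inr z) r = σ.1 r := by
  choose r hr using ev_sep σ
  exact ⟨(h.image r).toFinset, fun z k a => hr z (a _ (by simpa using ⟨_, _, k, rfl⟩))⟩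

lemma good_sep {K : Type} {g : Q J → K} {t : C} (h : Good g t (d J t)) (σ : Q J) :
    ∃ F : Finset C, ∀ n, (∀ r ∈ F, ev (.inr (t, n)) r = σ.1 r) → g (tie t n) = g σ := by
  obtain ⟨u, hu⟩ : ∃ u, ∀ᶠ n in atTop, ev (.inr (t, n)) u = σ.1 u → g (tie t n) = g σ := by
    by_cases c : σ = (d J t).1
    · exact ⟨t, ((tendsto_add_atTop_nat _).eventually h.2).mono fun n k _ => c ▸ k⟩
    obtain ⟨u, u1, u2⟩ : ∃ u, u ≠ t ∧ σ.1 u ≠ (d J t).1.1 u := by
      by_contra! k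
      obtain ⟨N, h1, h2⟩ := (σ.2.and (d J t).1.2).exists
      obtain ⟨r, r1, r2⟩ := near t N
      refine c (Subtype.ext (funext fun u => by_contra fun a => ?_))
      obtain rfl : u = t := by_contra fun b => a (k u b)
      exact a (by rw [← h1 r _ r2, ← h2 r _ r2, k r r1])
    refine ⟨u, ((tendsto_add_atTop_nat (d J t).2.2).eventually (A_ne u1)).mono fun n k e => ?_⟩
    rw [ev_ne n u1, tie, md_out k] at e
    exact (u2 e.symm).elim
  obtain ⟨K, hK⟩ := eventually_atTop.1 hu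
  obtain ⟨F, hF⟩ := fin_sep σ ((finite_lt_nat K).image fun n => (t, n))
  refine ⟨insert u F, fun n k => hK n (not_lt.1 fun c => hF _ ⟨n, c, rfl⟩ fun r a =>
    k r (Finset.mem_insert_of_mem a)) (k u (by simp))⟩

theorem lind {K : ℕ} (hK : Small J K) : IsLindelof {f : X J → Fin K | Continuous f} := by
  classical
  refine isLindelof_of_countable_subcover fun {κ} U hU hc => by_contra fun hn => ?_
  let Ω := {ω : (X J → Fin K) × (ℕ → C) × (Q J → ℕ) // ∀ σ x,
    (∀ m < ω.2.2 σ, ev x (ω.2.1 m) = σ.1 (ω.2.1 m)) → ω.1 x = ω.1 (.inl σ)}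
  let l : Filter Ω := .ofCountableInter {P | ∃ r : Set κ, r.Countable ∧
      ∀ ω ∉ P, ω.1.1 ∈ ⋃ i ∈ r, U i} (fun S h1 h2 => by
    choose! r r1 r2 using fun P (k : P ∈ S) => h2 k
    refine ⟨⋃ P ∈ S, r P, h1.biUnion r1, fun ω k => ?_⟩
    simp only [mem_sInter, not_forall] at k
    obtain ⟨P, k1, k2⟩ := k
    exact biUnion_subset_biUnion_left (subset_biUnion_of_mem (u := r) k1) (r2 P k1 ω k2))
    fun s t ⟨r, h1, h2⟩ k => ⟨r, h1, fun ω a => h2 ω fun b => a (k b)⟩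
  have : l.NeBot := ⟨fun e => by
    obtain ⟨r, h1, h2⟩ : (∅ : Set Ω) ∈ l := e ▸ mem_bot
    refine hn ⟨r, h1, fun f hf => ?_⟩
    choose F hF using (cont_iff f).1 hf
    obtain ⟨e, he⟩ := (((countable_iUnion fun σ => (F σ).countable_toSet).insert
      fun _ => true).exists_eq_range (insert_nonempty _ _))
    have : ∀ σ, ∃ n, ∀ r ∈ F σ, ∃ m < n, e m = r := fun σ => ((eventually_all_finset _).2 fun r k => by
      obtain ⟨m, hm⟩ : r ∈ range e := he ▸ Or.inr (mem_iUnion.2 ⟨σ, k⟩)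
      exact (eventually_gt_atTop m).mono fun n a => ⟨m, a, hm⟩).exists
    choose n hn using this
    refine h2 ⟨(f, e, n), fun σ x k => hF σ x fun r a => ?_⟩ id
    obtain ⟨m, b, rfl⟩ := hn σ r a
    exact k m b⟩
  obtain ⟨𝒢, G, E, L, Λ, _, g1, g2, g3, g4, g5, g6⟩ := core l (fun ω => ω.1.2.1) (d J)
    (data J).choose_spec.2.1 hK
    (fun ω σ => ω.1.1 (.inl σ)) (fun ω => ω.1.2.2) (fun ω m k => ω.1.1 (.inr (ω.1.2.1 m, k)))
    fun ω σ τ => ω.2 σ (.inl τ)
  have k1 : ∀ t n, (∀ m ∉ Λ, E m ≠ t) → ∀ᶠ ω in 𝒢, ω.1.1 (.inr (t, n)) = G (tie t n) := fun t n h => by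
    have : ∀ᶠ ω in 𝒢, ∀ m ∈ Finset.range (L (tie t n)), ω.1.2.1 m ≠ t :=
      (eventually_all_finset _).2 fun m _ => by
        by_cases c : m ∈ Λ
        exacts [(g6 m c).1 t, (g5 m c).mono fun ω a => a ▸ h m c]
    refine (this.and (g2 (tie t n))).mono fun ω a => (ω.2 _ _ fun m b => ev_ne n ?_).trans a.2.1
    exact a.1 m (Finset.mem_range.2 (a.2.2 ▸ b))
  have : ∀ x, ∃ c, ∀ᶠ ω in 𝒢, ω.1.1 x = c := by
    rintro (σ | ⟨t, n⟩)
    · exact ⟨_, (g2 σ).mono fun _ a => a.1⟩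
    by_cases c : ∀ m ∉ Λ, E m ≠ t
    · exact ⟨_, k1 t n c⟩
    push Not at c
    obtain ⟨m, c, rfl⟩ := c
    obtain ⟨a, h⟩ := g4 m n
    exact ⟨a, (h.and (g5 m c)).mono fun ω b => b.2 ▸ b.1⟩
  choose f hf using this
  have k2 : ∀ x c, (∀ᶠ ω in 𝒢, ω.1.1 x = c) → f x = c := fun x c h =>
    let ⟨_, a, b⟩ := ((hf x).and h).exists; a.symm.trans b
  have : Continuous f := (cont_iff f).2 fun σ => by
    have : ∀ m, ∃ F : Finset C, m ∈ Λ → ∀ n, (∀ r ∈ F, ev (.inr (E m, n)) r = σ.1 r) →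
        G (tie (E m) n) = G σ := fun m => by
      by_cases c : m ∈ Λ
      exacts [(good_sep (g6 m c).2.1 σ).imp fun _ a _ => a, ⟨∅, fun a => (c a).elim⟩]
    choose F hF using this
    refine ⟨(Finset.range (L σ)).biUnion fun m => insert (E m) (F m), fun x h => ?_⟩
    rw [k2 _ _ ((g2 σ).mono fun _ a => a.1)]
    simp only [Finset.mem_biUnion, Finset.mem_range, forall_exists_index, and_imp] at h
    by_cases c : ∃ m < L σ, m ∈ Λ ∧ ∃ n, x = .inr (E m, n)
    · obtain ⟨m, c1, c2, n, rfl⟩ := c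
      rw [k2 _ _ (k1 _ n fun k a => ((g6 m c2).2.2 k a).symm)]
      exact hF m c2 n fun r a => h r m c1 (Finset.mem_insert_of_mem a)
    push Not at c
    have : ∀ᶠ ω in 𝒢, ∀ m ∈ Finset.range (L σ), ev x (ω.1.2.1 m) = σ.1 (ω.1.2.1 m) :=
      (eventually_all_finset _).2 fun m a => by
        have a := Finset.mem_range.1 a
        have b := h _ m a (Finset.mem_insert_self _ _)
        by_cases k : m ∈ Λ
        · obtain ⟨N, n1, n2⟩ := ((ev_loc x _ (c m a k)).and σ.2).exists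
          exact (g3 m N).mono fun ω o => by rw [n1 _ o, n2 _ _ o, b]
        · exact (g5 m k).mono fun ω o => o ▸ b
    exact k2 _ _ ((this.and (g2 σ)).mono fun ω a => (ω.2 _ _ fun m b =>
      a.1 m (Finset.mem_range.2 (a.2.2 ▸ b))).trans a.2.1)
  obtain ⟨i, hi⟩ := mem_iUnion.1 (hc this)
  have : Tendsto (fun ω : Ω => ω.1.1) 𝒢 (𝓝 f) := tendsto_pi_nhds.2 fun x =>
    tendsto_const_nhds.congr' ((hf x).mono fun _ a => a.symm)
  obtain ⟨ω, a, b⟩ := ((this.eventually ((hU i).mem_nhds hi)).and (g1 (show {ω | ω.1.1 ∉ U i} ∈ l from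
    ⟨{i}, countable_singleton _, fun ω a => by simpa using a⟩))).exists
  exact b a

end Pool.Agent.KS6_94.CP
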