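import Pool.Agent.KS6_94.CP.D

set_option autoImplicit false

/-!
Metacompactness and subparacompactness; closed subspaces; change of the target space.
(The lemmas on closed embeddings and Lindelöf spaces follow `Pool.Agent.Y589.CP.Base` of an
earlier run.)
-/

namespace Pool.Agent.KS6_94.CP

open Set Filter Topology TopologicalSpace

universe u v w

/-- A space is metacompact if every open cover has a point-finite open refinement. -/
def Metacompact (P : Type u) [TopologicalSpace P] : Prop :=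
  ∀ 𝒰 : Set (Set P), (∀ U ∈ 𝒰, IsOpen U) → ⋃₀ 𝒰 = univ →
    ∃ 𝒱 : Set (Set P), (∀ V ∈ 𝒱, IsOpen V) ∧ ⋃₀ 𝒱 = univ ∧ (∀ V ∈ 𝒱, ∃ U ∈ 𝒰, V ⊆ U) ∧
      ∀ p, {V | V ∈ 𝒱 ∧ p ∈ V}.Finite

/-- A space is subparacompact if every open cover has a σ-discrete closed refinement: a sequence
`ℋ n` of discrete families of closed sets, each inside a member of the cover, whose union covers. -/
def Subparacompact (P : Type u) [TopologicalSpace P] : Prop :=
  ∀ 𝒰 : Set (Set P), (∀ U ∈ 𝒰, IsOpen U) → ⋃₀ 𝒰 = univ →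
    ∃ ℋ : ℕ → Set (Set P), (∀ n, ∀ H ∈ ℋ n, IsClosed H ∧ ∃ U ∈ 𝒰, H ⊆ U) ∧
      (⋃ n, ⋃₀ ℋ n) = univ ∧
      ∀ n p, ∃ O, IsOpen O ∧ p ∈ O ∧ {H | H ∈ ℋ n ∧ (H ∩ O).Nonempty}.Subsingleton

/-! ### closed subspaces -/

theorem meta_closed {P : Type u} {Q : Type v} [TopologicalSpace P] [TopologicalSpace Q] {e : P → Q}
    (he : IsClosedEmbedding e) (hQ : Metacompact Q) : Metacompact P := by
  classical
  intro 𝒰 hU hcov
  obtain ⟨𝒱, hV1, hV2, hV3, hV4⟩ := hQ {W | IsOpen W ∧ ((∃ U ∈ 𝒰, e ⁻¹' W = U) ∨ W = (range e)ᶜ)}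
    (fun W hW => hW.1) (by
      rw [eq_univ_iff_forall]
      intro q
      by_cases hq : q ∈ range e
      · obtain ⟨p, rfl⟩ := hq
        have hp : p ∈ ⋃₀ 𝒰 := by rw [hcov]; trivial
        obtain ⟨U, hUm, hpU⟩ := hp
        obtain ⟨W, hW, hWU⟩ := he.isInducing.isOpen_iff.1 (hU U hUm)
        refine ⟨W, ⟨hW, Or.inl ⟨U, hUm, hWU⟩⟩, ?_⟩
        rw [← hWU] at hpU
        exact hpU
      · exact ⟨_, ⟨he.isClosed_range.isOpen_compl, Or.inr rfl⟩, hq⟩)
  refine ⟨{S | ∃ V ∈ 𝒱, S = e ⁻¹' V ∧ S.Nonempty}, ?_, ?_, ?_, ?_⟩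
  · rintro S ⟨V, hV, rfl, -⟩
    exact (hV1 V hV).preimage he.continuous
  · rw [eq_univ_iff_forall]
    intro p
    have hp : e p ∈ ⋃₀ 𝒱 := by rw [hV2]; trivial
    obtain ⟨V, hV, hpV⟩ := hp
    exact ⟨e ⁻¹' V, ⟨V, hV, rfl, ⟨p, hpV⟩⟩, hpV⟩
  · rintro S ⟨V, hV, rfl, ⟨p, hp⟩⟩
    obtain ⟨W, ⟨hW, hW2⟩, hVW⟩ := hV3 V hV
    rcases hW2 with ⟨U, hUm, hWU⟩ | rfl
    · refine ⟨U, hUm, ?_⟩
      rw [← hWU]
      exact preimage_mono hVW
    · exact absurd ⟨p, rfl⟩ (hVW hp)
  · intro p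
    refine ((hV4 (e p)).image (fun V => e ⁻¹' V)).subset ?_
    rintro S ⟨⟨V, hV, rfl, -⟩, hpS⟩
    exact ⟨V, ⟨hV, hpS⟩, rfl⟩

theorem sub_closed {P : Type u} {Q : Type v} [TopologicalSpace P] [TopologicalSpace Q] {e : P → Q}
    (he : IsClosedEmbedding e) (hQ : Subparacompact Q) : Subparacompact P := by
  classical
  intro 𝒰 hU hcov
  obtain ⟨ℋ, h1, h2, h3⟩ := hQ {W | IsOpen W ∧ ((∃ U ∈ 𝒰, e ⁻¹' W = U) ∨ W = (range e)ᶜ)}
    (fun W hW => hW.1) (by
      rw [eq_univ_iff_forall]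
      intro q
      by_cases hq : q ∈ range e
      · obtain ⟨p, rfl⟩ := hq
        have hp : p ∈ ⋃₀ 𝒰 := by rw [hcov]; trivial
        obtain ⟨U, hUm, hpU⟩ := hp
        obtain ⟨W, hW, hWU⟩ := he.isInducing.isOpen_iff.1 (hU U hUm)
        refine ⟨W, ⟨hW, Or.inl ⟨U, hUm, hWU⟩⟩, ?_⟩
        rw [← hWU] at hpU
        exact hpU
      · exact ⟨_, ⟨he.isClosed_range.isOpen_compl, Or.inr rfl⟩, hq⟩)
  refine ⟨fun n => {S | ∃ H ∈ ℋ n, S = e ⁻¹' H ∧ S.Nonempty}, ?_, ?_, ?_⟩
  · rintro n S ⟨H, hH, rfl, ⟨p, hp⟩⟩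
    refine ⟨(h1 n H hH).1.preimage he.continuous, ?_⟩
    obtain ⟨W, ⟨hW, hW2⟩, hHW⟩ := (h1 n H hH).2
    rcases hW2 with ⟨U, hUm, hWU⟩ | rfl
    · refine ⟨U, hUm, ?_⟩
      rw [← hWU]
      exact preimage_mono hHW
    · exact absurd ⟨p, rfl⟩ (hHW hp)
  · rw [eq_univ_iff_forall]
    intro p
    have hp : e p ∈ ⋃ n, ⋃₀ ℋ n := by rw [h2]; trivial
    rw [mem_iUnion] at hp
    obtain ⟨n, H, hH, hpH⟩ := hp
    rw [mem_iUnion]
    exact ⟨n, e ⁻¹' H, ⟨H, hH, rfl, ⟨p, hpH⟩⟩, hpH⟩
  · intro n p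
    obtain ⟨O, hO, hpO, hs⟩ := h3 n (e p)
    refine ⟨e ⁻¹' O, hO.preimage he.continuous, hpO, ?_⟩
    rintro S ⟨⟨H, hH, rfl, -⟩, ⟨x, hx1, hx2⟩⟩ S' ⟨⟨H', hH', rfl, -⟩, ⟨x', hx1', hx2'⟩⟩
    have : H = H' := hs ⟨hH, ⟨e x, hx1, hx2⟩⟩ ⟨hH', ⟨e x', hx1', hx2'⟩⟩
    rw [this]

/-! ### Lindelöf spaces -/

theorem refine_lindelof {P : Type u} [TopologicalSpace P] [LindelofSpace P] [RegularSpace P]
    (𝒰 : Set (Set P)) (hU : ∀ U ∈ 𝒰, IsOpen U) (hcov : ⋃₀ 𝒰 = univ) (hne : Nonempty P) :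
    ∃ (U : ℕ → Set P) (K : ℕ → Set P), (∀ n, U n ∈ 𝒰) ∧ (∀ n, IsClosed (K n)) ∧ (∀ n, K n ⊆ U n) ∧
      ∀ p, ∃ n, p ∈ interior (K n) := by
  have h1 : ∀ p : P, ∃ U ∈ 𝒰, ∃ K ∈ nhds p, IsClosed K ∧ K ⊆ U := by
    intro p
    have hp : p ∈ ⋃₀ 𝒰 := by rw [hcov]; trivial
    obtain ⟨U, hUm, hpU⟩ := hp
    obtain ⟨K, hK1, hK2, hK3⟩ := exists_mem_nhds_isClosed_subset ((hU U hUm).mem_nhds hpU)
    exact ⟨U, hUm, K, hK1, hK2, hK3⟩
  choose U hUm K hK1 hK2 hK3 using h1
  obtain ⟨t, ht, htU⟩ := LindelofSpace.elim_nhds_subcover (fun p => interior (K p))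
    (fun p => interior_mem_nhds.2 (hK1 p))
  have hne' : t.Nonempty := by
    obtain ⟨p0⟩ := hne
    have : p0 ∈ ⋃ x ∈ t, interior (K x) := by rw [htU]; exact Set.mem_univ _
    rw [Set.mem_iUnion₂] at this
    obtain ⟨x, hx, -⟩ := this
    exact ⟨x, hx⟩
  obtain ⟨f, rfl⟩ := ht.exists_eq_range hne'
  refine ⟨fun n => U (f n), fun n => K (f n), fun n => hUm _, fun n => hK2 _, fun n => hK3 _, ?_⟩
  intro p
  have : p ∈ ⋃ x ∈ range f, interior (K x) := by rw [htU]; exact Set.mem_univ _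
  rw [Set.mem_iUnion₂] at this
  obtain ⟨_, ⟨n, rfl⟩, hp⟩ := this
  exact ⟨n, hp⟩

theorem meta_of_lindelof {P : Type u} [TopologicalSpace P] [LindelofSpace P] [RegularSpace P] :
    Metacompact P := by
  classical
  intro 𝒰 hU hcov
  by_cases hne : Nonempty P
  · obtain ⟨U, K, h1, h2, h3, h4⟩ := refine_lindelof 𝒰 hU hcov hne
    refine ⟨range (fun n => U n \ ⋃ i ∈ Iio n, K i), ?_, ?_, ?_, ?_⟩
    · rintro _ ⟨n, rfl⟩
      exact (hU _ (h1 n)).sdiff ((finite_Iio n).isClosed_biUnion fun i _ => h2 i)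
    · rw [eq_univ_iff_forall]
      intro p
      have hex : ∃ n, p ∈ K n := by
        obtain ⟨n, hn⟩ := h4 p
        exact ⟨n, interior_subset hn⟩
      refine ⟨_, ⟨Nat.find hex, rfl⟩, h3 _ (Nat.find_spec hex), ?_⟩
      intro hp
      rw [mem_iUnion₂] at hp
      obtain ⟨i, hi, hpi⟩ := hp
      exact Nat.find_min hex hi hpi
    · rintro _ ⟨n, rfl⟩
      exact ⟨U n, h1 n, sdiff_subset⟩
    · intro p
      obtain ⟨m, hm⟩ := h4 p
      refine ((finite_Iic m).image (fun n => U n \ ⋃ i ∈ Iio n, K i)).subset ?_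
      rintro _ ⟨⟨n, rfl⟩, hp⟩
      refine ⟨n, ?_, rfl⟩
      by_contra hn
      rw [mem_Iic, not_le] at hn
      exact hp.2 (mem_biUnion (show m ∈ Iio n from hn) (interior_subset hm))
  · rw [not_nonempty_iff] at hne
    exact ⟨∅, fun V h => h.elim, by ext p; exact (hne.false p).elim, fun V h => h.elim,
      fun p => (hne.false p).elim⟩

theorem sub_of_lindelof {P : Type u} [TopologicalSpace P] [LindelofSpace P] [RegularSpace P] :
    Subparacompact P := by
  classical
  intro 𝒰 hU hcov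
  by_cases hne : Nonempty P
  · obtain ⟨U, K, h1, h2, h3, h4⟩ := refine_lindelof 𝒰 hU hcov hne
    refine ⟨fun n => {K n}, ?_, ?_, ?_⟩
    · rintro n H hH
      rw [mem_singleton_iff] at hH
      subst hH
      exact ⟨h2 n, U n, h1 n, h3 n⟩
    · rw [eq_univ_iff_forall]
      intro p
      obtain ⟨n, hn⟩ := h4 p
      rw [mem_iUnion]
      exact ⟨n, K n, rfl, interior_subset hn⟩
    · intro n p
      refine ⟨univ, isOpen_univ, trivial, ?_⟩
      rintro S ⟨hS, -⟩ S' ⟨hS', -⟩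
      rw [mem_singleton_iff] at hS hS'
      rw [hS, hS']
  · rw [not_nonempty_iff] at hne
    exact ⟨fun _ => ∅, fun n V h => h.elim, by ext p; exact (hne.false p).elim,
      fun n p => (hne.false p).elim⟩

/-! ### the four properties -/

/-- Each of the four properties Lindelöf, normal, metacompact, subparacompact holds for `P` if and
only if `q`. -/
def Four (P : Type u) [TopologicalSpace P] (q : Prop) : Prop :=
  (LindelofSpace P ↔ q) ∧ (NormalSpace P ↔ q) ∧ (Metacompact P ↔ q) ∧ (Subparacompact P ↔ q)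

theorem Four.congr {P : Type u} [TopologicalSpace P] {q q' : Prop} (h : Four P q) (e : q ↔ q') :
    Four P q' := by rwa [← propext e]

theorem four_pos {P : Type u} [TopologicalSpace P] [RegularSpace P] {q : Prop}
    (h : LindelofSpace P) (hq : q) : Four P q := by
  have := h
  have : NormalSpace P := inferInstance
  exact ⟨iff_of_true h hq, iff_of_true inferInstance hq, iff_of_true meta_of_lindelof hq,
    iff_of_true sub_of_lindelof hq⟩

/-- none of the four properties -/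
def NoneOf (P : Type u) [TopologicalSpace P] : Prop :=
  ¬ LindelofSpace P ∧ ¬ NormalSpace P ∧ ¬ Metacompact P ∧ ¬ Subparacompact P

theorem NoneOf.four {P : Type u} [TopologicalSpace P] {q : Prop} (h : NoneOf P) (hq : ¬ q) :
    Four P q :=
  ⟨iff_of_false h.1 hq, iff_of_false h.2.1 hq, iff_of_false h.2.2.1 hq, iff_of_false h.2.2.2 hq⟩

theorem NoneOf.closed {P : Type u} {Q : Type v} [TopologicalSpace P] [TopologicalSpace Q]
    {e : P → Q} (he : IsClosedEmbedding e) (h : NoneOf P) : NoneOf Q :=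
  ⟨fun _ => h.1 he.LindelofSpace, fun _ => h.2.1 he.normalSpace,
    fun k => h.2.2.1 (meta_closed he k), fun k => h.2.2.2 (sub_closed he k)⟩

/-! ### change of the target -/

/-- `C_p(X, K)`: the continuous maps `X → K` with the topology of pointwise convergence. -/
abbrev Cp (X : Type u) (K : Type v) [TopologicalSpace X] [TopologicalSpace K] : Type (max u v) :=
  {f : X → K // Continuous f}

theorem post_embedding {X : Type u} {F : Type v} {K : Type w} [TopologicalSpace X]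
    [TopologicalSpace F] [TopologicalSpace K] {j : F → K} (hj : IsClosedEmbedding j) :
    IsClosedEmbedding (fun f : Cp X F => (⟨j ∘ f.1, hj.continuous.comp f.2⟩ : Cp X K)) := by
  have h0 : IsClosedEmbedding (fun f : X → F => (j ∘ f : X → K)) :=
    IsClosedEmbedding.piMap (fun _ => hj)
  refine ⟨⟨?_, ?_⟩, ?_⟩
  · -- inducing
    have h1 : IsInducing (fun f : Cp X F => (j ∘ f.1 : X → K)) := h0.isInducing.comp IsInducing.subtypeVal
    exact IsInducing.of_comp (g := (Subtype.val : Cp X K → (X → K)))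
      (Continuous.subtype_mk (h0.continuous.comp continuous_subtype_val) _) continuous_subtype_val h1
  · intro f g h
    exact Subtype.ext (h0.injective (congrArg Subtype.val h))
  · have h2 : range (fun f : Cp X F => (⟨j ∘ f.1, hj.continuous.comp f.2⟩ : Cp X K)) =
        Subtype.val ⁻¹' (range (fun f : X → F => (j ∘ f : X → K))) := by
      ext g
      constructor
      · rintro ⟨f, rfl⟩
        exact ⟨f.1, rfl⟩
      · rintro ⟨f, hf⟩
        have hc : Continuous f := by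
          rw [hj.isInducing.continuous_iff]
          have : j ∘ f = g.1 := hf
          rw [this]
          exact g.2
        exact ⟨⟨f, hc⟩, Subtype.ext hf⟩
    rw [h2]
    exact h0.isClosed_range.preimage continuous_subtype_val

/-- an injection of a finite discrete space into a `T₁` space is a closed embedding -/
theorem finite_embedding {F : Type u} {K : Type v} [TopologicalSpace F] [DiscreteTopology F]
    [Finite F] [TopologicalSpace K] [T1Space K] {j : F → K} (hj : Function.Injective j) :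
    IsClosedEmbedding j := by
  refine IsClosedEmbedding.of_continuous_injective_isClosedMap continuous_of_discreteTopology hj ?_
  intro s _
  exact (s.toFinite.image j).isClosed

/-- an injection between discrete spaces is a closed embedding -/
theorem discrete_embedding {F : Type u} {K : Type v} [TopologicalSpace F] [DiscreteTopology F]
    [TopologicalSpace K] [DiscreteTopology K] {j : F → K} (hj : Function.Injective j) :
    IsClosedEmbedding j :=
  IsClosedEmbedding.of_continuous_injective_isClosedMap continuous_of_discreteTopology hj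
    fun _ _ => isClosed_discrete _

/-- powers of `C_p(X, K)` -/
def powHom (X : Type u) (K : Type v) (I : Type w) [TopologicalSpace X] [TopologicalSpace K] :
    (I → Cp X K) ≃ₜ Cp X (I → K) where
  toFun g := ⟨fun x i => (g i).1 x, continuous_pi fun i => (g i).2⟩
  invFun h := fun i => ⟨fun x => h.1 x i, (continuous_apply i).comp h.2⟩
  left_inv g := rfl
  right_inv h := rfl
  continuous_toFun := by
    refine Continuous.subtype_mk (continuous_pi fun x => continuous_pi fun i => ?_) _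
    exact (continuous_apply x).comp (continuous_subtype_val.comp (continuous_apply i))
  continuous_invFun := by
    refine continuous_pi fun i => Continuous.subtype_mk (continuous_pi fun x => ?_) _
    exact (continuous_apply i).comp ((continuous_apply x).comp continuous_subtype_val)

theorem four_homeo {P : Type u} {Q : Type v} [TopologicalSpace P] [TopologicalSpace Q]
    (e : P ≃ₜ Q) {q : Prop} (h : Four Q q) : Four P q := by
  refine ⟨Iff.trans ⟨fun k => ?_, fun k => ?_⟩ h.1, Iff.trans ⟨fun k => ?_, fun k => ?_⟩ h.2.1,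
    Iff.trans ⟨fun k => ?_, fun k => ?_⟩ h.2.2.1, Iff.trans ⟨fun k => ?_, fun k => ?_⟩ h.2.2.2⟩
  · have := k
    exact e.symm.isClosedEmbedding.LindelofSpace
  · have := k
    exact e.isClosedEmbedding.LindelofSpace
  · have := k
    exact e.symm.isClosedEmbedding.normalSpace
  · have := k
    exact e.isClosedEmbedding.normalSpace
  · exact meta_closed e.symm.isClosedEmbedding k
  · exact meta_closed e.isClosedEmbedding k
  · exact sub_closed e.symm.isClosedEmbedding k
  · exact sub_closed e.isClosedEmbedding k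

end Pool.Agent.KS6_94.CP
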