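import Pool.Agent.KS6_94.CP.E

set_option autoImplicit false

/-! The classification of the targets `K` for which `C_p(X, K)` is Lindelöf. -/

namespace Pool.Agent.KS6_94.CP

open Set Filter Topology Cardinal TopologicalSpace

universe u v

theorem cp_lindelof {J : Type} [Countable J] [Nontrivial J] {n : ℕ} (h : Small J n) :
    LindelofSpace (Cp (X J) (Fin n)) :=
  isLindelof_iff_lindelofSpace.1 (lind h)

/-- targets with at most `n` points -/
theorem four_le {J : Type} [Countable J] [Nontrivial J] {n : ℕ} (h : Small J n) (K : Type u)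
    [TopologicalSpace K] [T1Space K] (hK : #K ≤ n) {q : Prop} (hq : q) :
    Four (Cp (X J) K) q := by
  have h1 : Cardinal.lift.{0} #K ≤ Cardinal.lift.{u} #(Fin n) := by simpa using hK
  obtain ⟨j⟩ := Cardinal.lift_mk_le'.1 h1
  have hfin : Finite K := Finite.of_injective j j.injective
  have := cp_lindelof h
  exact four_pos (post_embedding (X := X J) (finite_embedding j.injective)).LindelofSpace hq

/-- the space `C_p(X J, J)` -/
theorem noneOf {J : Type} [Countable J] [Nontrivial J] [TopologicalSpace J] [DiscreteTopology J] :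
    NoneOf (Cp (X J) J) := by
  have hm : ¬ Metacompact (Cp (X J) J) := fun h => by
    have o : ∀ U ∈ range fun t => (p J '' {t}ᶜ)ᶜ, IsOpen U := forall_mem_range.2 fun t =>
      (p_closed _).isOpen_compl
    have c : ⋃₀ (range fun t => (p J '' {t}ᶜ)ᶜ) = Set.univ := eq_univ_of_forall fun z =>
      (cover z).elim fun t h => ⟨_, ⟨t, rfl⟩, h⟩
    obtain ⟨𝒱, h0, h2, h1, h3⟩ := h _ o c
    choose V v1 v2 using fun r => mem_sUnion.1 (h2 ▸ mem_univ (p J r))
    obtain ⟨z, r, r1, -, r2⟩ := star' (fun _ => V) fun _ r => (h0 _ (v1 r)).mem_nhds (v2 r)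
    refine infinite_of_injective_forall_mem (f := fun k => V (r k)) (fun k l e => r1.injective ?_)
      (fun k => And.intro (v1 _) (r2 k)) (h3 z)
    obtain ⟨_, ⟨t, rfl⟩, h⟩ := h1 _ (v1 (r k))
    have e : V (r k) = V (r l) := e
    simp only [cover' (h (v2 _)), cover' (h (e ▸ v2 (r l)))]
  refine ⟨fun h => hm ?_, not_normal, hm, fun h => ?_⟩
  · have := h
    exact meta_of_lindelof
  · have o : ∀ U ∈ range fun t => (p J '' {t}ᶜ)ᶜ, IsOpen U := forall_mem_range.2 fun t =>
      (p_closed _).isOpen_compl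
    have c : ⋃₀ (range fun t => (p J '' {t}ᶜ)ᶜ) = Set.univ := eq_univ_of_forall fun z =>
      (cover z).elim fun t h => ⟨_, ⟨t, rfl⟩, h⟩
    obtain ⟨ℱ, h1, h2, h3⟩ := h _ o c
    have : ∀ n y, ∀ᶠ z in 𝓝 y, ∀ F ∈ ℱ n, z ∈ F → y ∈ F := fun n y => by
      obtain ⟨V, v0, v1, v2⟩ := h3 n y
      by_cases a : ∃ F ∈ ℱ n, (F ∩ V).Nonempty ∧ y ∉ F
      · obtain ⟨F, a1, a2, a3⟩ := a
        refine mem_of_superset (inter_mem (v0.mem_nhds v1) ((h1 n F a1).1.isOpen_compl.mem_nhds a3))
          fun z b G g1 g2 => (b.2 ?_).elim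
        exact v2 ⟨g1, z, g2, b.1⟩ ⟨a1, a2⟩ ▸ g2
      · exact mem_of_superset (v0.mem_nhds v1) fun z b G g1 g2 =>
          by_contra fun k => a ⟨G, g1, ⟨z, g2, b⟩, k⟩
    obtain ⟨z, r, r1, -, r2⟩ := star' (fun k r => {z | ∀ n ∈ Finset.range (k + 1), ∀ F ∈ ℱ n,
      z ∈ F → p J r ∈ F}) fun _ r => (eventually_all_finset _).2 fun n _ => this n _
    obtain ⟨n, F, f1, f2⟩ := mem_iUnion.1 (h2 ▸ mem_univ z)
    obtain ⟨_, ⟨t, rfl⟩, h⟩ := (h1 n F f1).2
    have a := cover' (h (r2 n n (by simp) F f1 f2))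
    have b := cover' (h (r2 (n + 1) n (by simp) F f1 f2))
    simpa [a, b] using r1 n.lt_succ_self

theorem small_fin (n : ℕ) : Small (Fin (n + 1)) n := ⟨Finset.univ, by simp⟩

theorem small_nat (n : ℕ) : Small ℕ n := ⟨Finset.range (n + 1), by simp⟩

/-- the first half: the space for `n` -/
theorem four_n {n : ℕ} (hn : 1 ≤ n) (K : Type u) [TopologicalSpace K] [T1Space K] :
    haveI : Nontrivial (Fin (n + 1)) := Fin.nontrivial_iff_two_le.2 (by omega)
    Four (Cp (X (Fin (n + 1))) K) (#K ≤ n) := by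
  haveI : Nontrivial (Fin (n + 1)) := Fin.nontrivial_iff_two_le.2 (by omega)
  by_cases h : #K ≤ n
  · exact four_le (small_fin n) K h h
  · have h1 : Cardinal.lift.{u} #(Fin (n + 1)) ≤ Cardinal.lift.{0} #K := by
      rw [not_le] at h
      have := Order.succ_le_of_lt h
      rw [Cardinal.succ_natCast] at this
      simpa using this
    obtain ⟨k⟩ := Cardinal.lift_mk_le'.1 h1
    exact (noneOf.closed (post_embedding (X := X (Fin (n + 1)))
      (finite_embedding k.injective))).four h

/-- the second half: the space for `ω` -/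
theorem four_omega (K : Type u) [TopologicalSpace K] [DiscreteTopology K] :
    Four (Cp (X ℕ) K) (Finite K) := by
  by_cases h : Finite K
  · have h1 : #K ≤ (Nat.card K : ℕ) := (Nat.cast_card (α := K)).ge
    exact four_le (small_nat _) K h1 h
  · have : Infinite K := not_finite_iff_infinite.1 h
    exact (noneOf.closed (post_embedding (X := X ℕ)
      (discrete_embedding (Infinite.natEmbedding K).injective))).four h

theorem two_pow_le (I : Type v) (m : ℕ) : (#(I → Bool) ≤ ((2 ^ m : ℕ) : Cardinal)) ↔ #I ≤ m := by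
  have e : #(I → Bool) = (2 : Cardinal) ^ #I := by simp
  rw [e]
  rcases lt_or_ge #I ℵ₀ with h | h
  · obtain ⟨k, hk⟩ := Cardinal.lt_aleph0.1 h
    rw [hk]
    constructor
    · intro h1
      have h2 : 2 ^ k ≤ 2 ^ m := by exact_mod_cast h1
      exact_mod_cast (Nat.pow_le_pow_iff_right (by norm_num)).1 h2
    · intro h1
      have h2 : k ≤ m := by exact_mod_cast h1
      exact_mod_cast Nat.pow_le_pow_right (by norm_num) h2
  · refine iff_of_false (fun h1 => ?_) (fun h1 => ?_)
    · exact absurd ((h.trans (Cardinal.cantor _).le).trans h1) (not_le.2 (Cardinal.natCast_lt_aleph0))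
    · exact absurd (h.trans h1) (not_le.2 (Cardinal.natCast_lt_aleph0))

theorem main :
    (∀ n : ℕ, 1 ≤ n → ∃ (X : Type) (_ : TopologicalSpace X), T35Space X ∧
      IsTopologicalBasis {U : Set X | IsClopen U} ∧
      (∀ (K : Type u) [TopologicalSpace K] [T1Space K], Four (Cp X K) (#K ≤ n)) ∧
      ∀ (K : Type u) [TopologicalSpace K] [T1Space K] (I : Type v),
        Four (I → Cp X K) (#(I → K) ≤ n)) ∧
    (∀ m : ℕ, ∃ (X : Type) (_ : TopologicalSpace X), T35Space X ∧
      IsTopologicalBasis {U : Set X | IsClopen U} ∧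
      ∀ I : Type v, Four (I → Cp X Bool) (#I ≤ m)) ∧
    ∃ (X : Type) (_ : TopologicalSpace X), T35Space X ∧
      IsTopologicalBasis {U : Set X | IsClopen U} ∧
      (∀ (K : Type u) [TopologicalSpace K] [DiscreteTopology K], Four (Cp X K) (Finite K)) ∧
      ∀ (K : Type u) [TopologicalSpace K] [DiscreteTopology K] (I : Type v) [Finite I] [Nonempty I],
        Four (I → Cp X K) (Finite K) := by
  refine ⟨fun n hn => ?_, fun m => ?_, ?_⟩
  · have : Nontrivial (Fin (n + 1)) := Fin.nontrivial_iff_two_le.2 (by omega)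
    exact ⟨X (Fin (n + 1)), inferInstance, inferInstance, basis, fun K _ _ => four_n hn K,
      fun K _ _ I => four_homeo (powHom _ K I) (four_n hn (I → K))⟩
  · have hn : 1 ≤ 2 ^ m := Nat.one_le_two_pow
    have : Nontrivial (Fin (2 ^ m + 1)) := Fin.nontrivial_iff_two_le.2 (by omega)
    exact ⟨X (Fin (2 ^ m + 1)), inferInstance, inferInstance, basis,
      fun I => (four_homeo (powHom _ Bool I) (four_n hn (I → Bool))).congr (two_pow_le I m)⟩
  · refine ⟨X ℕ, inferInstance, inferInstance, basis, fun K _ _ => four_omega K,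
      fun K _ _ I _ _ => (four_homeo (powHom _ K I) (four_omega (I → K))).congr ?_⟩
    constructor
    · intro h
      exact Finite.of_surjective (fun f : I → K => f (Classical.arbitrary I))
        (fun k => ⟨fun _ => k, rfl⟩)
    · intro h
      infer_instance

end Pool.Agent.KS6_94.CP
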